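import Mathlib
import Pool.Agent.helper81.DI.SpecD

/-!
# Project di (MP_baa4d7_al), module D6: defect `≤ 0`
-/

set_option autoImplicit false

namespace Pool.Agent.DI

open Pool.Agent.helper58.DC

lemma D6_defect_unique {G : Type} [Group G] {p : ℕ} {H : Subgroup G} {ψ : G → ℂ} {d e : ℤ}
    (h1 : Defect p H ψ d) (h2 : Defect p H ψ e) : d = e := by
  obtain ⟨n, hn, hd⟩ := h1
  obtain ⟨m, hm, he⟩ := h2
  have : n = m := by
    have : (n : ℂ) = m := by rw [← hn, hm]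
    exact_mod_cast this
  subst this
  rw [hd, he]

lemma D6_empty (hA13 : A13_stmt) (hB2 : B2_stmt) (hC11 : C11_stmt) (hC14 : C14_stmt)
    (hTI : TI_stmt) (hIM : IM_stmt)
    (G : Type) [Group G] [Finite G] (p : ℕ)
    [Fact p.Prime] (M : Ideal (integralClosure ℤ ℂ)) (hM : M.IsMaximal)
    (hpM : (p : integralClosure ℤ ℂ) ∈ M) (χ : G → ℂ)
    (hpos : PosDefect p M χ) (d : ℤ) (hd : d ≤ 0) (C : Finset (Subgroup G))
    (hC : IsRadical p C) (ψ : G → ℂ) (hψ : ψ ∈ IrrOn (nrm C)) (hdef : Defect p (nrm C) ψ d)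
    (hind : Induces M ψ χ) : False := by
  obtain ⟨P, hPC, hPmax, hPp, hPn, hnP, -⟩ := hA13 G p C hC
  -- the defect is `0`
  have hd0 : d = 0 := by
    obtain ⟨-, hB⟩ := hB2 G (nrm C)
    obtain ⟨⟨n, hn, hn1, hdvd⟩, -⟩ := hB ψ hψ
    obtain ⟨m, hm, hde⟩ := hdef
    have hnm : m = n := by
      have : (m : ℂ) = n := by rw [← hm, hn1]
      exact_mod_cast this
    subst hnm
    have h1 : padicValNat p m ≤ padicValNat p (Nat.card (nrm C)) :=
      padicValNat_dvd_iff_le (Nat.card_pos.ne') |>.1 (pow_padicValNat_dvd.trans hdvd)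
    omega
  subst hd0
  have hP : P = ⊥ := hC14 G p M hM hpM (nrm C) P hPn hnP hPp ψ hψ hdef
  have hnrm : nrm C = ⊤ := by
    unfold nrm
    rw [eq_top_iff]
    refine le_iInf₂ fun Q hQ => ?_
    have hQ0 : Q = ⊥ := by
      have := hPmax Q hQ
      rw [hP] at this
      exact le_bot_iff.1 this
    rw [hQ0]
    exact le_of_eq (Subgroup.normalizer_eq_top (H := (⊥ : Subgroup G))).symm
  rw [hnrm] at hψ hdef
  have hψI : ψ ∈ Irr G := (hTI G ψ).1 hψ
  obtain ⟨χ', hχ', hind', d', hd', hdef'⟩ := hpos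
  have h1 : Induces M χ ψ := (hIM G M ψ χ χ).2.1 hind
  have h2 : Induces M χ' ψ := (hIM G M χ' χ ψ).2.2.1 hind' h1
  have h3 : χ' = ψ := hC11 G p M hM hpM χ' hχ' ψ hψI hdef h2
  rw [h3] at hdef'
  have := D6_defect_unique hdef hdef'
  omega

theorem D6 (hA13 : A13_stmt) (hB2 : B2_stmt) (hC11 : C11_stmt) (hC14 : C14_stmt)
    (hTI : TI_stmt) (hIM : IM_stmt) : D6_stmt := by
  intro G E A _ _ _ _ X p _ M hM hpM χ _ hpos d hd U
  unfold altSum
  have h0 : ∀ c : Quot (chainRel (G := G) p), kC X p M χ d U c.out.1 = 0 := by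
    intro c
    unfold kC
    have : IsEmpty {ψ : G → ℂ // ψ ∈ IrrOn (nrm c.out.1) ∧ Defect p (nrm c.out.1) ψ d ∧
        Induces M ψ χ ∧ (X.stab c.out.1 ψ).map X.proj = U} := by
      refine ⟨?_⟩
      rintro ⟨ψ, h1, h2, h3, -⟩
      exact D6_empty hA13 hB2 hC11 hC14 hTI hIM G p M hM hpM χ hpos d hd c.out.1 c.out.2 ψ
        h1 h2 h3
    exact Nat.card_of_isEmpty
  simp [h0]

end Pool.Agent.DI
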